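import Pool.Agent.H7.TF.Targets

/-! Modules A1, A2, A3: cycle counts, Ree's inequality, planar moves. -/

set_option autoImplicit false

namespace Pool.Agent.H73.TF

open Equiv Pool.Agent.H7.TF

variable {D : Type}

/-- the equivalence relation gluing `x` and `y` -/
def pr (x y : D) : Setoid D where
  r a b := a = b ∨ (a = x ∧ b = y) ∨ (a = y ∧ b = x)
  iseqv := by
    refine ⟨fun a => Or.inl rfl, ?_, ?_⟩
    · rintro a b (h | ⟨h1, h2⟩ | ⟨h1, h2⟩)
      · exact Or.inl h.symm
      · exact Or.inr (Or.inr ⟨h2, h1⟩)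
      · exact Or.inr (Or.inl ⟨h2, h1⟩)
    · rintro a b c (rfl | ⟨rfl, rfl⟩ | ⟨rfl, rfl⟩) (rfl | ⟨h1, h2⟩ | ⟨h1, h2⟩)
      · exact Or.inl rfl
      · exact Or.inr (Or.inl ⟨h1, h2⟩)
      · exact Or.inr (Or.inr ⟨h1, h2⟩)
      · exact Or.inr (Or.inl ⟨rfl, rfl⟩)
      · exact Or.inr (Or.inl ⟨rfl, h2⟩)
      · exact Or.inl h2.symm
      · exact Or.inr (Or.inr ⟨rfl, rfl⟩)
      · exact Or.inl h2.symm
      · exact Or.inr (Or.inr ⟨rfl, h2⟩)

lemma pr_rel (x y : D) : pr x y x y := Or.inr (Or.inl ⟨rfl, rfl⟩)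

lemma pr_swap [DecidableEq D] (x y z : D) : pr x y z (swap x y z) := by
  by_cases h1 : z = x
  · rw [h1, swap_apply_left]; exact Or.inr (Or.inl ⟨rfl, rfl⟩)
  · by_cases h2 : z = y
    · rw [h2, swap_apply_right]; exact Or.inr (Or.inr ⟨rfl, rfl⟩)
    · rw [swap_apply_of_ne_of_ne h1 h2]

/-- explicit description of `S ⊔ pr x y` -/
def glue (S : Setoid D) (x y : D) : Setoid D where
  r a b := S a b ∨ (S a x ∧ S y b) ∨ (S a y ∧ S x b)
  iseqv := by
    refine ⟨fun a => Or.inl (S.refl' a), ?_, ?_⟩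
    · rintro a b (h | ⟨h1, h2⟩ | ⟨h1, h2⟩)
      · exact Or.inl (S.symm' h)
      · exact Or.inr (Or.inr ⟨S.symm' h2, S.symm' h1⟩)
      · exact Or.inr (Or.inl ⟨S.symm' h2, S.symm' h1⟩)
    · rintro a b c (h | ⟨h1, h2⟩ | ⟨h1, h2⟩) (h' | ⟨h1', h2'⟩ | ⟨h1', h2'⟩)
      · exact Or.inl (S.trans' h h')
      · exact Or.inr (Or.inl ⟨S.trans' h h1', h2'⟩)
      · exact Or.inr (Or.inr ⟨S.trans' h h1', h2'⟩)
      · exact Or.inr (Or.inl ⟨h1, S.trans' h2 h'⟩)
      · exact Or.inr (Or.inl ⟨h1, h2'⟩)
      · exact Or.inl (S.trans' h1 h2')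
      · exact Or.inr (Or.inr ⟨h1, S.trans' h2 h'⟩)
      · exact Or.inl (S.trans' h1 h2')
      · exact Or.inr (Or.inr ⟨h1, h2'⟩)

lemma sup_pr (S : Setoid D) (x y : D) : S ⊔ pr x y = glue S x y := by
  apply le_antisymm
  · refine sup_le ?_ ?_
    · intro a b h; exact Or.inl h
    · rintro a b (rfl | ⟨rfl, rfl⟩ | ⟨rfl, rfl⟩)
      · exact Or.inl (S.refl' a)
      · exact Or.inr (Or.inl ⟨S.refl' _, S.refl' _⟩)
      · exact Or.inr (Or.inr ⟨S.refl' _, S.refl' _⟩)
  · have h1 : S ≤ S ⊔ pr x y := le_sup_left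
    have h2 : pr x y ≤ S ⊔ pr x y := le_sup_right
    rintro a b (h | ⟨ha, hb⟩ | ⟨ha, hb⟩)
    · exact h1 h
    · exact (S ⊔ pr x y).trans' (h1 ha) ((S ⊔ pr x y).trans' (h2 (pr_rel x y)) (h1 hb))
    · exact (S ⊔ pr x y).trans' (h1 ha)
        ((S ⊔ pr x y).trans' ((S ⊔ pr x y).symm' (h2 (pr_rel x y))) (h1 hb))

lemma sup_pr_of_rel {S : Setoid D} {x y : D} (h : S x y) : S ⊔ pr x y = S := by
  apply le_antisymm
  · refine sup_le le_rfl ?_
    rintro a b (rfl | ⟨rfl, rfl⟩ | ⟨rfl, rfl⟩)
    · exact S.refl' a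
    · exact h
    · exact S.symm' h
  · exact le_sup_left

/-- Lemma J, second half -/
lemma card_sup_pr [Finite D] {S : Setoid D} {x y : D} (h : ¬ S x y) :
    Nat.card (Quotient (S ⊔ pr x y)) + 1 = Nat.card (Quotient S) := by
  classical
  rw [sup_pr]
  have key : Nat.card (Quotient (glue S x y)) =
      Nat.card {c : Quotient S // c ≠ Quotient.mk S y} := by
    refine Nat.card_congr ⟨?_, ?_, ?_, ?_⟩
    · refine Quotient.lift (fun a => if ha : S a y then
        (⟨Quotient.mk S x, fun hc => h (Quotient.exact hc)⟩ :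
          {c : Quotient S // c ≠ Quotient.mk S y})
        else ⟨Quotient.mk S a, fun hc => ha (Quotient.exact hc)⟩) ?_
      rintro a b (hab | ⟨ha, hb⟩ | ⟨ha, hb⟩)
      · by_cases ha : S a y
        · have hb : S b y := S.trans' (S.symm' hab) ha
          simp [ha, hb]
        · have hb : ¬ S b y := fun hb => ha (S.trans' hab hb)
          simp only [ha, hb, dite_false]
          exact Subtype.ext (Quotient.sound hab)
      · have ha' : ¬ S a y := fun ha' => h (S.trans' (S.symm' ha) ha')
        have hb' : S b y := S.symm' hb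
        simp only [ha', hb', dite_false, dite_true]
        exact Subtype.ext (Quotient.sound ha)
      · have hb' : ¬ S b y := fun hb' => h (S.trans' hb hb')
        simp only [ha, hb', dite_false, dite_true]
        exact Subtype.ext (Quotient.sound hb)
    · intro c
      exact Quotient.map' id (fun a b hab => Or.inl hab) c.1
    · intro c
      induction c using Quotient.inductionOn with
      | h a =>
        by_cases ha : S a y
        · simp only [Quotient.lift_mk, ha, dite_true]
          exact Quotient.sound (Or.inr (Or.inl ⟨S.refl' x, S.symm' ha⟩))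
        · simp only [Quotient.lift_mk, ha, dite_false]
          rfl
    · rintro ⟨c, hc⟩
      induction c using Quotient.inductionOn with
      | h a =>
        have ha : ¬ S a y := fun ha => hc (Quotient.sound ha)
        apply Subtype.ext
        show ((Quotient.lift _ _ (Quotient.mk (glue S x y) a) :
          {c : Quotient S // c ≠ Quotient.mk S y}) : Quotient S) = _
        simp only [Quotient.lift_mk, ha, dite_false]
  rw [key]
  have := Fintype.ofFinite (Quotient S)
  rw [Nat.card_eq_fintype_card, Nat.card_eq_fintype_card, Fintype.card_subtype_compl,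
    Fintype.card_subtype_eq]
  have : 0 < Fintype.card (Quotient S) := Fintype.card_pos_iff.mpr ⟨Quotient.mk S y⟩
  omega

lemma card_sup_pr_of_rel {S : Setoid D} {x y : D} (h : S x y) :
    Nat.card (Quotient (S ⊔ pr x y)) = Nat.card (Quotient S) := by
  rw [sup_pr_of_rel h]

lemma card_le_sup_pr [Finite D] (S : Setoid D) (x y : D) :
    Nat.card (Quotient S) ≤ Nat.card (Quotient (S ⊔ pr x y)) + 1 := by
  by_cases h : S x y
  · rw [card_sup_pr_of_rel h]; omega
  · rw [card_sup_pr h]

/-- abbreviation -/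
abbrev SC (α : Perm D) : Setoid D := Perm.SameCycle.setoid α

lemma sc_def {α : Perm D} {x y : D} : SC α x y ↔ α.SameCycle x y := Iff.rfl

lemma sc_le {α : Perm D} {S : Setoid D} (h : ∀ z, S z (α z)) : SC α ≤ S := by
  rintro a b ⟨i, rfl⟩
  induction i using Int.induction_on with
  | zero => exact S.refl' _
  | succ i ih =>
    rw [zpow_add_one, Perm.mul_apply] at *
    have e : (α ^ (i : ℤ)) (α a) = α ((α ^ (i : ℤ)) a) := by
      rw [← Perm.mul_apply, ← Perm.mul_apply, ← zpow_add_one, ← zpow_one_add, add_comm]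
    rw [e]
    exact S.trans' ih (h _)
  | pred i ih =>
    have e : α ((α ^ (-(i : ℤ) - 1)) a) = (α ^ (-(i : ℤ))) a := by
      rw [← Perm.mul_apply, ← zpow_one_add]
      congr 2
      ring
    have h1 := h ((α ^ (-(i : ℤ) - 1)) a)
    rw [e] at h1
    exact S.trans' ih (S.symm' h1)

lemma sc_apply (α : Perm D) (z : D) : SC α z (α z) := ⟨1, by simp⟩

lemma sc_inv (α : Perm D) : SC α⁻¹ = SC α := by
  apply le_antisymm
  · refine sc_le fun z => (SC α).symm' ?_
    have := sc_apply α (α⁻¹ z)
    simpa using this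
  · refine sc_le fun z => (SC α⁻¹).symm' ?_
    have := sc_apply α⁻¹ (α z)
    simpa using this

lemma nc_inv (α : Perm D) : nc α⁻¹ = nc α := by
  unfold nc
  rw [show Perm.SameCycle.setoid α⁻¹ = Perm.SameCycle.setoid α from sc_inv α]

section swaps

variable [DecidableEq D]

lemma sc_mul_swap (α : Perm D) (x y : D) : SC (α * swap x y) ⊔ pr x y = SC α ⊔ pr x y := by
  apply le_antisymm
  · refine sup_le (sc_le fun z => ?_) le_sup_right
    have h1 : (SC α ⊔ pr x y) z (swap x y z) :=
      (le_sup_right : pr x y ≤ SC α ⊔ pr x y) (pr_swap x y z)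
    have h2 : (SC α ⊔ pr x y) (swap x y z) (α (swap x y z)) :=
      (le_sup_left : SC α ≤ SC α ⊔ pr x y) (sc_apply α _)
    exact (SC α ⊔ pr x y).trans' h1 h2
  · refine sup_le (sc_le fun z => ?_) le_sup_right
    set S := SC (α * swap x y) ⊔ pr x y with hS
    have h1 : S z (swap x y z) := (le_sup_right : pr x y ≤ S) (pr_swap x y z)
    have h2 : S (swap x y z) ((α * swap x y) (swap x y z)) :=
      (le_sup_left : SC (α * swap x y) ≤ S) (sc_apply _ _)
    have e : (α * swap x y) (swap x y z) = α z := by simp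
    rw [e] at h2
    exact S.trans' h1 h2

lemma sc_swap_mul (α : Perm D) (x y : D) : SC (swap x y * α) ⊔ pr x y = SC α ⊔ pr x y := by
  have h := sc_mul_swap α⁻¹ x y
  rw [sc_inv] at h
  rw [← h, ← sc_inv (swap x y * α), mul_inv_rev, swap_inv]

/-- following the cycle of `x` from `y` -/
lemma follow (α : Perm D) {x y : D} (_hxy : x ≠ y) : ∀ n : ℕ, 1 ≤ n →
    (∀ j, 1 ≤ j → j < n → (α ^ j) x ≠ x ∧ (α ^ j) x ≠ y) →
    ((α * swap x y) ^ n) y = (α ^ n) x := by
  intro n
  induction n with
  | zero => intro h; omega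
  | succ n ih =>
    intro _ h
    rcases Nat.eq_zero_or_pos n with rfl | hn
    · simp
    · have h1 := ih hn fun j hj1 hj2 => h j hj1 (by omega)
      have h2 := h n hn (by omega)
      rw [pow_succ', Perm.mul_apply, h1, Perm.mul_apply, swap_apply_of_ne_of_ne h2.1 h2.2,
        pow_succ', Perm.mul_apply]

lemma exists_first [Finite D] (α : Perm D) {x z : D} (h : α.SameCycle x z) : ∃ n : ℕ, 1 ≤ n ∧
    (α ^ n) x = z ∧ ∀ j, 1 ≤ j → j < n → (α ^ j) x ≠ z := by
  classical
  have := Fintype.ofFinite D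
  have hex : ∃ n : ℕ, 1 ≤ n ∧ (α ^ n) x = z := by
    obtain ⟨n, hn1, hn2⟩ := h.exists_pow_eq''
    exact ⟨n, hn1, hn2.2⟩
  refine ⟨Nat.find hex, (Nat.find_spec hex).1, (Nat.find_spec hex).2, ?_⟩
  intro j hj1 hj2 hj3
  exact Nat.find_min hex hj2 ⟨hj1, hj3⟩

lemma not_same_of_same [Finite D] (α : Perm D) {x y : D} (hxy : x ≠ y) (h : α.SameCycle x y) :
    ¬ (α * swap x y).SameCycle x y := by
  obtain ⟨n, hn1, hn2, hn3⟩ := exists_first α h
  have hx : ∀ j, 1 ≤ j → j < n → (α ^ j) x ≠ x := by
    intro j hj1 hj2 hj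
    refine hn3 (n - j) (by omega) (by omega) ?_
    have e : (α ^ (n - j)) ((α ^ j) x) = (α ^ n) x := by
      rw [← Perm.mul_apply, ← pow_add]
      congr 2
      omega
    rw [hj] at e
    rw [e, hn2]
  have hfol : ∀ i, 1 ≤ i → i ≤ n → ((α * swap x y) ^ i) y = (α ^ i) x := fun i hi1 hi2 =>
    follow α hxy i hi1 fun j hj1 hj2 => ⟨hx j hj1 (by omega), hn3 j hj1 (by omega)⟩
  have hper : ((α * swap x y) ^ n) y = y := by rw [hfol n hn1 le_rfl, hn2]
  intro hsame
  obtain ⟨m, hm1, hm2, _⟩ := exists_first (α * swap x y) hsame.symm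
  -- reduce m modulo n
  have hper' : ∀ k, ((α * swap x y) ^ (n * k)) y = y := by
    intro k
    rw [pow_mul]
    induction k with
    | zero => simp
    | succ k ih => rw [pow_succ', Perm.mul_apply, ih, hper]
  have hmod : ((α * swap x y) ^ (m % n)) y = x := by
    have e : ((α * swap x y) ^ (m % n)) (((α * swap x y) ^ (n * (m / n))) y) =
        ((α * swap x y) ^ m) y := by
      rw [← Perm.mul_apply, ← pow_add, Nat.mod_add_div]
    rw [hper', hm2] at e
    exact e
  rcases Nat.eq_zero_or_pos (m % n) with h0 | h0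
  · rw [h0] at hmod
    simp at hmod
    exact hxy hmod.symm
  · have hlt : m % n < n := Nat.mod_lt _ (by omega)
    rw [hfol _ h0 hlt.le] at hmod
    exact hx _ h0 hlt hmod

lemma same_of_not_same [Finite D] (α : Perm D) {x y : D} (hxy : x ≠ y)
    (h : ¬ α.SameCycle x y) : (α * swap x y).SameCycle x y := by
  obtain ⟨n, hn1, hn2, hn3⟩ := exists_first α (Perm.SameCycle.refl α x)
  have h1 := follow α hxy n hn1 fun j hj1 hj2 =>
    ⟨hn3 j hj1 hj2, fun hy => h ⟨j, by rw [zpow_natCast]; exact hy⟩⟩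
  rw [hn2] at h1
  exact Perm.SameCycle.symm (⟨n, by rw [zpow_natCast]; exact h1⟩ : (α * swap x y).SameCycle y x)

lemma same_swap_iff [Finite D] (α : Perm D) {x y : D} (hxy : x ≠ y) :
    (α * swap x y).SameCycle x y ↔ ¬ α.SameCycle x y :=
  ⟨fun h h' => not_same_of_same α hxy h' h, same_of_not_same α hxy⟩

lemma same_swap_iff' [Finite D] (α : Perm D) {x y : D} (hxy : x ≠ y) :
    (swap x y * α).SameCycle x y ↔ ¬ α.SameCycle x y := by
  rw [← Perm.sameCycle_inv, mul_inv_rev, swap_inv, same_swap_iff _ hxy, Perm.sameCycle_inv]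

lemma nc_mul_swap_of_same [Finite D] (α : Perm D) {x y : D} (hxy : x ≠ y)
    (h : α.SameCycle x y) : nc (α * swap x y) = nc α + 1 := by
  have h1 : Nat.card (Quotient (SC α ⊔ pr x y)) = nc α := card_sup_pr_of_rel h
  have h2 : Nat.card (Quotient (SC (α * swap x y) ⊔ pr x y)) + 1 = nc (α * swap x y) :=
    card_sup_pr (not_same_of_same α hxy h)
  rw [sc_mul_swap] at h2
  omega

lemma nc_mul_swap_of_not_same [Finite D] (α : Perm D) {x y : D} (hxy : x ≠ y)
    (h : ¬ α.SameCycle x y) : nc (α * swap x y) + 1 = nc α := by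
  have h1 : Nat.card (Quotient (SC α ⊔ pr x y)) + 1 = nc α := card_sup_pr h
  have h2 : Nat.card (Quotient (SC (α * swap x y) ⊔ pr x y)) = nc (α * swap x y) :=
    card_sup_pr_of_rel (same_of_not_same α hxy h)
  rw [sc_mul_swap] at h2
  omega

lemma nc_swap_mul_of_same [Finite D] (α : Perm D) {x y : D} (hxy : x ≠ y)
    (h : α.SameCycle x y) : nc (swap x y * α) = nc α + 1 := by
  rw [← nc_inv (swap x y * α), mul_inv_rev, swap_inv,
    nc_mul_swap_of_same α⁻¹ hxy (Perm.sameCycle_inv.mpr h), nc_inv]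

lemma nc_swap_mul_of_not_same [Finite D] (α : Perm D) {x y : D} (hxy : x ≠ y)
    (h : ¬ α.SameCycle x y) : nc (swap x y * α) + 1 = nc α := by
  rw [← nc_inv (swap x y * α), mul_inv_rev, swap_inv,
    nc_mul_swap_of_not_same α⁻¹ hxy (fun h' => h (Perm.sameCycle_inv.mp h')), nc_inv]

lemma conn_swap (α β : Perm D) (x y : D) :
    conn (α * swap x y) (swap x y * β) ⊔ pr x y = conn α β ⊔ pr x y := by
  show (SC (α * swap x y) ⊔ SC (swap x y * β)) ⊔ pr x y = (SC α ⊔ SC β) ⊔ pr x y
  calc (SC (α * swap x y) ⊔ SC (swap x y * β)) ⊔ pr x y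
      = (SC (α * swap x y) ⊔ pr x y) ⊔ (SC (swap x y * β) ⊔ pr x y) := by
        rw [sup_sup_sup_comm, sup_idem]
    _ = (SC α ⊔ pr x y) ⊔ (SC β ⊔ pr x y) := by rw [sc_mul_swap, sc_swap_mul]
    _ = _ := by rw [sup_sup_sup_comm, sup_idem]

lemma conn_swap_right (α β : Perm D) (x y : D) :
    conn α (swap x y * β) ⊔ pr x y = conn α β ⊔ pr x y := by
  show (SC α ⊔ SC (swap x y * β)) ⊔ pr x y = (SC α ⊔ SC β) ⊔ pr x y
  rw [sup_assoc, sc_swap_mul, sup_assoc]

end swaps

lemma conn_left {α β : Perm D} {x y : D} (h : α.SameCycle x y) : conn α β x y :=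
  (le_sup_left : SC α ≤ conn α β) h

lemma conn_right {α β : Perm D} {x y : D} (h : β.SameCycle x y) : conn α β x y :=
  (le_sup_right : SC β ≤ conn α β) h

/-- A1 -/
theorem A1 : T_A1 := by
  intro D _ _ α x y hxy
  exact ⟨fun h => ⟨nc_mul_swap_of_same α hxy h, nc_swap_mul_of_same α hxy h⟩,
    fun h => ⟨nc_mul_swap_of_not_same α hxy h, nc_swap_mul_of_not_same α hxy h⟩⟩

lemma nc_le [Finite D] (α : Perm D) : nc α ≤ Nat.card D :=
  Nat.card_le_card_of_surjective _ Quotient.mk_surjective

lemma sc_one : SC (1 : Perm D) = ⊥ := by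
  apply le_antisymm
  · exact sc_le fun z => rfl
  · exact bot_le

lemma nc_one : nc (1 : Perm D) = Nat.card D := by
  unfold nc
  rw [show Perm.SameCycle.setoid (1 : Perm D) = ⊥ from sc_one]
  refine (Nat.card_eq_of_bijective (Quotient.mk (⊥ : Setoid D)) ⟨?_, Quotient.mk_surjective⟩).symm
  intro a b hab
  exact Quotient.exact hab

lemma comps_one (β : Perm D) : comps 1 β = nc β := by
  unfold comps nc
  rw [show conn 1 β = Perm.SameCycle.setoid β by
    show SC 1 ⊔ SC β = SC β
    rw [sc_one, bot_sup_eq]]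

/-- gluing: when `x` and `y` are connected, deleting the gluing costs at most one component -/
lemma comps_le_of_sup [Finite D] {S S' : Setoid D} {x y : D} (h : S' ⊔ pr x y = S ⊔ pr x y)
    (hS : S x y) : Nat.card (Quotient S') ≤ Nat.card (Quotient S) + 1 := by
  have h1 := card_le_sup_pr S' x y
  rw [h, card_sup_pr_of_rel hS] at h1
  exact h1

lemma comps_eq_of_sup {S S' : Setoid D} {x y : D} (h : S' ⊔ pr x y = S ⊔ pr x y)
    (hS : S x y) (hS' : S' x y) : S' = S := by
  rw [sup_pr_of_rel hS, sup_pr_of_rel hS'] at h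
  exact h

lemma swap_prod [DecidableEq D] (α β : Perm D) (x y : D) :
    (α * swap x y) * (swap x y * β) = α * β := by
  rw [mul_assoc, swap_mul_self_mul]

/-- Ree's theorem -/
theorem ree [Finite D] [DecidableEq D] : ∀ (k : ℕ) (α β : Perm D), Nat.card D - nc α = k →
    nc α + nc β + nc (α * β) ≤ Nat.card D + 2 * comps α β := by
  intro k
  induction k with
  | zero =>
    intro α β hk
    have hle := nc_le α
    have hα : α = 1 := by
      by_contra hne
      obtain ⟨x, hx⟩ : ∃ x, α x ≠ x := by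
        by_contra hcon
        push Not at hcon
        exact hne (Perm.ext hcon)
      have h1 := nc_mul_swap_of_same α (x := x) (y := α x) (Ne.symm hx) ⟨1, by simp⟩
      have h2 := nc_le (α * swap x (α x))
      omega
    subst hα
    rw [one_mul, nc_one, comps_one]
    omega
  | succ k ih =>
    intro α β hk
    obtain ⟨x, hx⟩ : ∃ x, α x ≠ x := by
      by_contra hcon
      push Not at hcon
      have : α = 1 := Perm.ext hcon
      rw [this, nc_one] at hk
      omega
    set y := α x with hy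
    have hxy : x ≠ y := Ne.symm hx
    have hsame : α.SameCycle x y := ⟨1, by simp [hy]⟩
    have hnc := nc_mul_swap_of_same α hxy hsame
    have hih := ih (α * swap x y) (swap x y * β) (by omega)
    rw [swap_prod] at hih
    have hconn : conn α β x y := conn_left hsame
    have hsup := conn_swap α β x y
    by_cases hβ : β.SameCycle x y
    · have h1 := nc_swap_mul_of_same β hxy hβ
      have h2 : comps (α * swap x y) (swap x y * β) ≤ comps α β + 1 :=
        comps_le_of_sup hsup hconn
      omega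
    · have h1 := nc_swap_mul_of_not_same β hxy hβ
      have h2 : conn (α * swap x y) (swap x y * β) x y :=
        conn_right ((same_swap_iff' β hxy).mpr hβ)
      have h3 : comps (α * swap x y) (swap x y * β) = comps α β := by
        unfold comps
        rw [comps_eq_of_sup hsup hconn h2]
      omega

/-- A2 -/
theorem A2 : T_A2 := by
  intro D _ _ α β
  exact ree _ α β rfl

lemma conn_le_of_rel [DecidableEq D] {α β : Perm D} {x y : D} (h : conn α β x y) :
    conn (α * swap x y) (swap x y * β) ≤ conn α β := by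
  calc conn (α * swap x y) (swap x y * β) ≤ conn (α * swap x y) (swap x y * β) ⊔ pr x y :=
        le_sup_left
    _ = conn α β ⊔ pr x y := conn_swap α β x y
    _ = conn α β := sup_pr_of_rel h

/-- first move -/
lemma move1 [Finite D] [DecidableEq D] {α β : Perm D} {x y : D} (hpl : Planar α β) (hxy : x ≠ y)
    (h : α.SameCycle x y ∨ β.SameCycle x y) :
    Planar (α * swap x y) (swap x y * β) ∧ conn (α * swap x y) (swap x y * β) ≤ conn α β := by
  have hconn : conn α β x y := by
    rcases h with h | h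
    · exact conn_left h
    · exact conn_right h
  refine ⟨?_, conn_le_of_rel hconn⟩
  unfold Planar at hpl ⊢
  rw [swap_prod]
  have hsup := conn_swap α β x y
  by_cases hα : α.SameCycle x y
  · have h1 := nc_mul_swap_of_same α hxy hα
    by_cases hβ : β.SameCycle x y
    · have h2 := nc_swap_mul_of_same β hxy hβ
      have h3 : comps (α * swap x y) (swap x y * β) ≤ comps α β + 1 :=
        comps_le_of_sup hsup hconn
      have h4 := ree _ (α * swap x y) (swap x y * β) rfl
      rw [swap_prod] at h4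
      omega
    · have h2 := nc_swap_mul_of_not_same β hxy hβ
      have h3 : conn (α * swap x y) (swap x y * β) x y :=
        conn_right ((same_swap_iff' β hxy).mpr hβ)
      have h4 : comps (α * swap x y) (swap x y * β) = comps α β := by
        unfold comps
        rw [comps_eq_of_sup hsup hconn h3]
      omega
  · have hβ : β.SameCycle x y := h.resolve_left hα
    have h1 := nc_mul_swap_of_not_same α hxy hα
    have h2 := nc_swap_mul_of_same β hxy hβ
    have h3 : conn (α * swap x y) (swap x y * β) x y :=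
      conn_left ((same_swap_iff α hxy).mpr hα)
    have h4 : comps (α * swap x y) (swap x y * β) = comps α β := by
      unfold comps
      rw [comps_eq_of_sup hsup hconn h3]
    omega

lemma conn_symm_right (α β : Perm D) : conn α⁻¹ (α * β) = conn α β := by
  show SC α⁻¹ ⊔ SC (α * β) = SC α ⊔ SC β
  rw [sc_inv]
  apply le_antisymm
  · refine sup_le le_sup_left (sc_le fun z => ?_)
    have h1 : (SC α ⊔ SC β) z (β z) := (le_sup_right : SC β ≤ SC α ⊔ SC β) (sc_apply β z)
    have h2 : (SC α ⊔ SC β) (β z) (α (β z)) :=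
      (le_sup_left : SC α ≤ SC α ⊔ SC β) (sc_apply α (β z))
    exact (SC α ⊔ SC β).trans' h1 h2
  · refine sup_le le_sup_left (sc_le fun z => ?_)
    set S := SC α ⊔ SC (α * β) with hS
    have h1 : S z ((α * β) z) := (le_sup_right : SC (α * β) ≤ S) (sc_apply (α * β) z)
    have h2 : S (β z) (α (β z)) := (le_sup_left : SC α ≤ S) (sc_apply α (β z))
    exact S.trans' h1 (S.symm' h2)

lemma planar_symm (α β : Perm D) : Planar α⁻¹ (α * β) ↔ Planar α β := by
  unfold Planar comps
  rw [conn_symm_right, nc_inv, inv_mul_cancel_left]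
  constructor <;> intro h <;> omega

/-- second move -/
lemma move2 [Finite D] [DecidableEq D] {α β : Perm D} {x y : D} (hpl : Planar α β) (hxy : x ≠ y)
    (h : α.SameCycle x y ∨ (α * β).SameCycle x y) :
    Planar (swap x y * α) β ∧ conn (swap x y * α) β ≤ conn α β := by
  have h1 := move1 ((planar_symm α β).mpr hpl) hxy
    (h.imp_left fun h => Perm.sameCycle_inv.mpr h)
  have e1 : α⁻¹ * swap x y = (swap x y * α)⁻¹ := by rw [mul_inv_rev, swap_inv]
  have e2 : swap x y * (α * β) = (swap x y * α) * β := by rw [mul_assoc]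
  rw [e1, e2, planar_symm, conn_symm_right, conn_symm_right] at h1
  exact h1

/-- third move -/
lemma move3 [Finite D] [DecidableEq D] {α β : Perm D} {x y : D} (hpl : Planar α β) (hxy : x ≠ y)
    (h : ¬ conn α β x y) : Planar α (swap x y * β) := by
  have hβ : ¬ β.SameCycle x y := fun h' => h (conn_right h')
  have h1 := nc_swap_mul_of_not_same β hxy hβ
  have e : α * (swap x y * β) = (α * β) * swap (β⁻¹ x) (β⁻¹ y) := by
    rw [mul_assoc, mul_swap_eq_swap_mul]
    simp
  have hxy' : β⁻¹ x ≠ β⁻¹ y := fun h' => hxy (by simpa using congrArg β h')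
  have hab : ¬ (α * β).SameCycle (β⁻¹ x) (β⁻¹ y) := by
    intro h'
    apply h
    have h2 : conn α β (β⁻¹ x) (β⁻¹ y) := by
      rw [← conn_symm_right]
      exact conn_right h'
    have h3 : conn α β (β⁻¹ x) x := conn_right ⟨1, by simp⟩
    have h4 : conn α β (β⁻¹ y) y := conn_right ⟨1, by simp⟩
    exact (conn α β).trans' ((conn α β).symm' h3) ((conn α β).trans' h2 h4)
  have h2 := nc_mul_swap_of_not_same (α * β) hxy' hab
  have h3 : conn α (swap x y * β) x y := conn_right ((same_swap_iff' β hxy).mpr hβ)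
  have h4 : comps α (swap x y * β) + 1 = comps α β := by
    have h5 := card_sup_pr h
    rw [← conn_swap_right, card_sup_pr_of_rel h3] at h5
    exact h5
  unfold Planar at hpl ⊢
  rw [e]
  omega

/-- A3 -/
theorem A3 : T_A3 := by
  intro D _ _ α β x y hpl hxy
  exact ⟨move1 hpl hxy, move2 hpl hxy, move3 hpl hxy⟩

end Pool.Agent.H73.TF
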