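import Pool.Agent.H73.TF.A123

/-! Module A4: isolating a dart. -/

set_option autoImplicit false

namespace Pool.Agent.H73.TF

open Equiv Pool.Agent.H7.TF

variable {D : Type}

lemma conn_swap_left [DecidableEq D] (α β : Perm D) (x y : D) :
    conn (α * swap x y) β ⊔ pr x y = conn α β ⊔ pr x y := by
  show (SC (α * swap x y) ⊔ SC β) ⊔ pr x y = (SC α ⊔ SC β) ⊔ pr x y
  rw [sup_comm (SC (α * swap x y)), sup_comm (SC α), sup_assoc, sc_mul_swap, sup_assoc]

lemma iso1 [Finite D] [DecidableEq D] {α β : Perm D} {d : D} (hpl : Planar α β) (hd : α d = d) :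
    Planar α (swap d (β d) * β) ∧ conn α (swap d (β d) * β) ≤ conn α β := by
  by_cases hb : β d = d
  · rw [hb, swap_self]
    change Planar α (1 * β) ∧ conn α (1 * β) ≤ conn α β
    rw [one_mul]
    exact ⟨hpl, le_rfl⟩
  · have hne : d ≠ β d := fun h => hb h.symm
    have hs : β.SameCycle d (β d) := ⟨1, by simp⟩
    have h1 := nc_swap_mul_of_same β hne hs
    have e : α * (swap d (β d) * β) = swap d ((α * β) d) * (α * β) := by
      rw [← mul_assoc, mul_swap_eq_swap_mul, hd, mul_assoc]
      rfl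
    have hne2 : d ≠ (α * β) d := by
      intro h
      apply hne
      apply α.injective
      rw [hd]
      exact h
    have hs2 : (α * β).SameCycle d ((α * β) d) := ⟨1, by simp⟩
    have h2 := nc_swap_mul_of_same (α * β) hne2 hs2
    have hconn : conn α β d (β d) := conn_right hs
    have hsup := conn_swap_right α β d (β d)
    have h3 : comps α (swap d (β d) * β) ≤ comps α β + 1 := comps_le_of_sup hsup hconn
    have h4 := ree _ α (swap d (β d) * β) rfl
    refine ⟨?_, ?_⟩
    · unfold Planar at hpl ⊢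
      rw [e] at h4 ⊢
      omega
    · calc conn α (swap d (β d) * β) ≤ conn α (swap d (β d) * β) ⊔ pr d (β d) := le_sup_left
        _ = conn α β ⊔ pr d (β d) := hsup
        _ = conn α β := sup_pr_of_rel hconn

lemma iso2 [Finite D] [DecidableEq D] {α β : Perm D} {d : D} (hpl : Planar α β) (hd : β d = d) :
    Planar (α * swap d (α⁻¹ d)) β ∧ conn (α * swap d (α⁻¹ d)) β ≤ conn α β := by
  by_cases hb : α⁻¹ d = d
  · rw [hb, swap_self]
    change Planar (α * 1) β ∧ conn (α * 1) β ≤ conn α β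
    rw [mul_one]
    exact ⟨hpl, le_rfl⟩
  · have hne : d ≠ α⁻¹ d := fun h => hb h.symm
    have hs : α.SameCycle d (α⁻¹ d) := ⟨-1, by simp⟩
    have hd' : β⁻¹ d = d := by
      apply β.injective
      simpa using hd.symm
    have h1 := nc_mul_swap_of_same α hne hs
    have e : α * swap d (α⁻¹ d) * β = (α * β) * swap d ((α * β)⁻¹ d) := by
      rw [mul_assoc, swap_mul_eq_mul_swap, hd', mul_assoc, mul_inv_rev]
      rfl
    have hne2 : d ≠ (α * β)⁻¹ d := by
      intro h
      apply hne
      have := congrArg β h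
      rw [hd, mul_inv_rev, Perm.mul_apply] at this
      simpa using this
    have hs2 : (α * β).SameCycle d ((α * β)⁻¹ d) := ⟨-1, by simp⟩
    have h2 := nc_mul_swap_of_same (α * β) hne2 hs2
    have hconn : conn α β d (α⁻¹ d) := conn_left hs
    have hsup := conn_swap_left α β d (α⁻¹ d)
    have h3 : comps (α * swap d (α⁻¹ d)) β ≤ comps α β + 1 := comps_le_of_sup hsup hconn
    have h4 := ree _ (α * swap d (α⁻¹ d)) β rfl
    refine ⟨?_, ?_⟩
    · unfold Planar at hpl ⊢
      rw [e] at h4 ⊢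
      omega
    · calc conn (α * swap d (α⁻¹ d)) β ≤ conn (α * swap d (α⁻¹ d)) β ⊔ pr d (α⁻¹ d) := le_sup_left
        _ = conn α β ⊔ pr d (α⁻¹ d) := hsup
        _ = conn α β := sup_pr_of_rel hconn

lemma iso3 [Finite D] [DecidableEq D] {α β : Perm D} {d : D} (hpl : Planar α β) :
    Planar (α * swap d (α⁻¹ d)) (swap d (β d) * β) ∧
    conn (α * swap d (α⁻¹ d)) (swap d (β d) * β) ≤ conn α β := by
  have e : α * swap d (α⁻¹ d) = swap (α d) d * α := by
    rw [mul_swap_eq_swap_mul]
    simp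
  have hfix : (α * swap d (α⁻¹ d)) d = d := by simp
  have h1 : Planar (α * swap d (α⁻¹ d)) β ∧ conn (α * swap d (α⁻¹ d)) β ≤ conn α β := by
    by_cases ha : α d = d
    · rw [e, ha, swap_self]
      change Planar (1 * α) β ∧ conn (1 * α) β ≤ conn α β
      rw [one_mul]
      exact ⟨hpl, le_rfl⟩
    · rw [e]
      exact move2 hpl ha (Or.inl ⟨-1, by simp⟩)
  have h2 := iso1 h1.1 hfix
  exact ⟨h2.1, h2.2.trans h1.2⟩

/-- A4 -/
theorem A4 : T_A4 := by
  intro D _ _ α β d hpl
  exact ⟨iso1 hpl, iso2 hpl, iso3 hpl⟩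

end Pool.Agent.H73.TF
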